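import Mathlib
import Pool.Agent.X83.DA.Stm

/-! Project FE: existence of the operator families `P_c, G_c` (structure `Fam` of `X83.DA.Stm`) for every
self-adjoint coercive operator `A` (structure `SA`) on a real Hilbert space. -/

set_option autoImplicit false

namespace Pool.Agent.X37.FE

open MeasureTheory Set Filter Topology RealInnerProductSpace Pool.Agent.X83.DA

section
variable (H : Type*) [NormedAddCommGroup H] [InnerProductSpace ℝ H] [CompleteSpace H]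

variable {H} in
/-- `B` is the bounded inverse of `A` -/
structure Inv (D : Submodule ℝ H) (A : D →ₗ[ℝ] H) (B : H →L[ℝ] H) : Prop where
  mem : ∀ x : H, ∃ h : B x ∈ D, A ⟨B x, h⟩ = x
  left : ∀ v : D, B (A v) = v
  sym : ∀ x y : H, ⟪B x, y⟫ = ⟪x, B y⟫
  nonneg : ∀ x : H, 0 ≤ ⟪B x, x⟫
  dense2 : Dense (Set.range fun x => B (B x))

/-- (INV) existence of the inverse. `A` is injective (`coer`), `‖A v‖ ≥ b ‖v‖`, closed (`max`, `sym`), so the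
range is closed; if `x ⟂ range` then `x ∈ D`, `A x = 0` by `max` (with `z = 0`), `x = 0`. So `A` is
bijective; `‖A⁻¹‖ ≤ 1/b`. `dense2`: if `y ⟂ B B x` for all `x` then `B B y = 0`, `y = 0`
(`Submodule.dense_iff_topologicalClosure_eq_top`, `Submodule.topologicalClosure_eq_top_iff`). -/
def S_INV : Prop := ∀ (D : Submodule ℝ H) (A : D →ₗ[ℝ] H) (b : ℝ), SA D A b →
  ∃ B : H →L[ℝ] H, Inv D A B

/-- (YOS) the approximations `L = (B + δ)⁻¹`, `δ > 0`: Lax-Milgram for `B + δ`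
(`⟪(B + δ) x, x⟫ ≥ δ ‖x‖²`). `‖L B x‖ ≤ ‖x‖` and `‖δ L x‖ ≤ ‖x‖`: with `y = L x`, `x = B y + δ y`,
`‖x‖² = ‖B y‖² + 2 δ ⟪B y, y⟫ + ‖δ y‖²` (and `L B x = B L x`). -/
def S_YOS : Prop := ∀ (B : H →L[ℝ] H), (∀ x y : H, ⟪B x, y⟫ = ⟪x, B y⟫) → (∀ x : H, 0 ≤ ⟪B x, x⟫) →
  ∀ δ : ℝ, 0 < δ → ∃ L : H →L[ℝ] H, (∀ x, L (B x) + δ • L x = x) ∧ (∀ x, B (L x) + δ • L x = x) ∧
    (∀ x y : H, ⟪L x, y⟫ = ⟪x, L y⟫) ∧ (∀ x : H, 0 ≤ ⟪L x, x⟫) ∧ (∀ x, ‖L (B x)‖ ≤ ‖x‖) ∧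
    ∀ x, ‖δ • L x‖ ≤ ‖x‖

variable {H} in
/-- the families for a bounded operator `L` -/
structure BFam (L : H →L[ℝ] H) (c : ℝ) (P G : ℝ → H →L[ℝ] H) : Prop where
  P0 : P 0 = 0
  G0 : G 0 = 1
  dP : ∀ (x : H) (t : ℝ), HasDerivAt (fun s => P s x) (G t x) t
  dG : ∀ (x : H) (t : ℝ), HasDerivAt (fun s => G s x) (-(c • G t x) - L (P t x)) t
  com : ∀ M : H →L[ℝ] H, (∀ x, M (L x) = L (M x)) → ∀ t x, M (P t x) = P t (M x) ∧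
    M (G t x) = G t (M x)

/-- (EXP) `P t x = (exp(tM)(0,x)).1`, `G t x = (exp(tM)(0,x)).2`, `M(u,v) = (v, -c v - L u)` on `H × H`
(`NormedSpace.exp`, `hasDerivAt_exp_smul_const'`, `Commute.exp_right`) -/
def S_EXP : Prop := ∀ (L : H →L[ℝ] H) (c : ℝ), ∃ P G : ℝ → H →L[ℝ] H, BFam L c P G

/-- (BND) energy `e = ‖R‖² + ⟪L Z, Z⟫`, `e' = -2 c ‖R‖² + 2 ⟪g, R⟫`, so `|e'| ≤ (2 c + 1) e + K²`, Gronwall
(`norm_le_gronwallBound_of_norm_deriv_right_le`) for `t ↦ e t` and `t ↦ e (-t)` -/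
def S_BND : Prop := ∀ (c τ : ℝ), 0 < c → 0 ≤ τ → ∃ C : ℝ, 0 ≤ C ∧ ∀ (L : H →L[ℝ] H),
  (∀ x y : H, ⟪L x, y⟫ = ⟪x, L y⟫) → (∀ x : H, 0 ≤ ⟪L x, x⟫) → ∀ (Z R g : ℝ → H) (K : ℝ), 0 ≤ K →
  (∀ t, HasDerivAt Z (R t) t) → (∀ t, HasDerivAt R (-(c • R t) - L (Z t) + g t) t) → Z 0 = 0 →
  (∀ t, |t| ≤ τ → ‖g t‖ ≤ K) →
  ∀ t, |t| ≤ τ → ‖R t‖ ≤ C * (‖R 0‖ + K) ∧ ‖Z t‖ ≤ C * (‖R 0‖ + K)

/-- (CON) convergence: `B`, `L n = (B + 1/(n+1))⁻¹` as in YOS, `P n, G n` their families. Then for all `x`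
the sequences `P n t x`, `G n t x` are uniformly Cauchy on compact intervals. For `x = B B y`:
`Z = P n x - P m x` satisfies `Z'' = -c Z' - L n Z + g`, `g = (L m - L n) (P m x)
= (1/(n+1) - 1/(m+1)) P m (L m B) (L n B) y` (`L m - L n = (δ_n - δ_m) L m L n`, all commute), then BND.
For general `x` by density and `‖G n t x‖, ‖P n t x‖ ≤ C ‖x‖` (BND with `g = 0`). -/
def S_CON : Prop := S_BND H → ∀ (B : H →L[ℝ] H) (L : ℕ → H →L[ℝ] H) (c : ℝ) (P G : ℕ → ℝ → H →L[ℝ] H),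
  0 < c → Dense (Set.range fun x => B (B x)) →
  (∀ n x, L n (B x) + (1 / ((n : ℝ) + 1)) • L n x = x) →
  (∀ n x, B (L n x) + (1 / ((n : ℝ) + 1)) • L n x = x) →
  (∀ n, ∀ x y : H, ⟪L n x, y⟫ = ⟪x, L n y⟫) → (∀ n, ∀ x : H, 0 ≤ ⟪L n x, x⟫) →
  (∀ n x, ‖L n (B x)‖ ≤ ‖x‖) → (∀ n, BFam (L n) c (P n) (G n)) →
  (∀ τ : ℝ, 0 ≤ τ → ∃ C : ℝ, 0 ≤ C ∧ ∀ n x t, |t| ≤ τ → ‖P n t x‖ ≤ C * ‖x‖ ∧ ‖G n t x‖ ≤ C * ‖x‖) ∧
  ∀ (x : H) (τ ε : ℝ), 0 < ε → ∃ N : ℕ, ∀ m n : ℕ, N ≤ m → N ≤ n → ∀ t, |t| ≤ τ →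
    ‖P n t x - P m t x‖ ≤ ε ∧ ‖G n t x - G m t x‖ ≤ ε

/-- (APX) `L n (B x) → x`: for `x = B B y`, `x - L n (B x) = δ L n B B y`, norm `≤ δ ‖B y‖`; density and
`‖L n (B x)‖ ≤ ‖x‖` -/
def S_APX : Prop := ∀ (B : H →L[ℝ] H) (L : ℕ → H →L[ℝ] H), Dense (Set.range fun x => B (B x)) →
  (∀ n x, L n (B x) + (1 / ((n : ℝ) + 1)) • L n x = x) → (∀ n x, ‖L n (B x)‖ ≤ ‖x‖) →
  ∀ x, Tendsto (fun n => L n (B x)) atTop (𝓝 x)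

/-- (LIM) the limit families: pointwise limits of `P n t`, `G n t` (`continuousLinearMapOfTendsto`),
derivatives by `hasDerivAt_of_tendstoLocallyUniformlyOn` (on `univ`). -/
def S_LIM : Prop := ∀ (P G : ℕ → ℝ → H →L[ℝ] H), (∀ n, P n 0 = 0) → (∀ n, G n 0 = 1) →
  (∀ n x t, HasDerivAt (fun s => P n s x) (G n t x) t) →
  (∀ (x : H) (τ ε : ℝ), 0 < ε → ∃ N : ℕ, ∀ m n : ℕ, N ≤ m → N ≤ n → ∀ t, |t| ≤ τ →
    ‖P n t x - P m t x‖ ≤ ε ∧ ‖G n t x - G m t x‖ ≤ ε) →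
  ∃ P' G' : ℝ → H →L[ℝ] H, P' 0 = 0 ∧ G' 0 = 1 ∧ (∀ x, Continuous fun t => G' t x) ∧
    (∀ x t, HasDerivAt (fun s => P' s x) (G' t x) t) ∧
    ∀ (x : H), TendstoLocallyUniformlyOn (fun n t => P n t x) (fun t => P' t x) atTop Set.univ ∧
      TendstoLocallyUniformlyOn (fun n t => G n t x) (fun t => G' t x) atTop Set.univ

/-- (FIN) assembly: `comP` by passing to the limit in `B (P n t w) = P n t (B w)`, `dG` for `v = B w`: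
`(G n v)' = -c G n v - P n t (L n (B w))` converges locally uniformly. -/
def S_FIN : Prop := S_INV H → S_YOS H → S_EXP H → S_BND H → S_CON H → S_APX H → S_LIM H →
  ∀ (D : Submodule ℝ H) (A : D →ₗ[ℝ] H) (b c : ℝ), SA D A b → 0 < c →
  ∃ P G : ℝ → H →L[ℝ] H, Fam D A c P G

end

end Pool.Agent.X37.FE
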