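import Mathlib
import Pool.Agent.X37.FE.Stm
import Pool.Agent.X191.FE.LIM

set_option autoImplicit false

namespace Pool.Agent.X37.FE.FIN

open MeasureTheory Set Filter Topology RealInnerProductSpace Pool.Agent.X83.DA Pool.Agent.X37.FE

theorem unif {E : Type*} [NormedAddCommGroup E] (F : ℕ → ℝ → E) (f : ℝ → E)
    (h : ∀ τ ε : ℝ, 0 < ε → ∀ᶠ n in atTop, ∀ t, |t| ≤ τ → ‖F n t - f t‖ ≤ ε) :
    TendstoLocallyUniformlyOn F f atTop Set.univ := by
  rw [Metric.tendstoLocallyUniformlyOn_iff]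
  intro ε hε x _
  refine ⟨Metric.ball x 1, mem_nhdsWithin_of_mem_nhds (Metric.ball_mem_nhds x one_pos), ?_⟩
  filter_upwards [h (|x| + 1) (ε / 2) (by linarith)] with n hn y hy
  rw [dist_comm, dist_eq_norm]
  have h1 : |y| ≤ |x| + 1 := by
    rw [Metric.mem_ball, Real.dist_eq] at hy
    have := abs_sub_abs_le_abs_sub y x
    linarith
  linarith [hn y h1]

theorem fin (H : Type*) [NormedAddCommGroup H] [InnerProductSpace ℝ H] [CompleteSpace H]
    (hINV : S_INV H) (hYOS : S_YOS H) (hEXP : S_EXP H) (hBND : S_BND H) (hCON : S_CON H)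
    (hAPX : S_APX H) (hLIM : Pool.Agent.X191.FE.S_LIM H)
    (D : Submodule ℝ H) (A : D →ₗ[ℝ] H) (b c : ℝ) (hSA : SA D A b) (hc : 0 < c) :
    ∃ P G : ℝ → H →L[ℝ] H, Fam D A c P G := by
  obtain ⟨B, hB⟩ := hINV D A b hSA
  have hδ : ∀ n : ℕ, (0 : ℝ) < 1 / ((n : ℝ) + 1) := fun n => by positivity
  choose L hL1 hL2 hL3 hL4 hL5 hL6 using fun n : ℕ => hYOS B hB.sym hB.nonneg _ (hδ n)
  choose P G hPG using fun n => hEXP (L n) c
  obtain ⟨hbd, hcau⟩ := hCON hBND B L c P G hc hB.dense2 hL1 hL2 hL3 hL4 hL5 hPG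
  obtain ⟨P', G', hP0, hG0, hGc, hdP, hconv⟩ := hLIM P G (fun n => (hPG n).P0)
    (fun n => (hPG n).G0) (fun n => (hPG n).dP)
    (fun n x => continuous_iff_continuousAt.2 fun t => ((hPG n).dG x t).continuousAt) hcau
  have hPt : ∀ x t, Tendsto (fun n => P n t x) atTop (𝓝 (P' t x)) := fun x t =>
    (hconv x).1.tendsto_at (mem_univ t)
  have hGt : ∀ x t, Tendsto (fun n => G n t x) atTop (𝓝 (G' t x)) := fun x t =>
    (hconv x).2.tendsto_at (mem_univ t)
  have hun : ∀ (x : H) (τ ε : ℝ), 0 < ε → ∀ᶠ n in atTop, ∀ t, |t| ≤ τ →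
      ‖P n t x - P' t x‖ ≤ ε ∧ ‖G n t x - G' t x‖ ≤ ε := by
    intro x τ ε hε
    obtain ⟨N, hN⟩ := hcau x τ ε hε
    filter_upwards [eventually_ge_atTop N] with n hn t ht
    constructor
    · refine le_of_tendsto ((tendsto_const_nhds.sub (hPt x t)).norm) ?_
      filter_upwards [eventually_ge_atTop N] with m hm
      exact (hN m n hm hn t ht).1
    · refine le_of_tendsto ((tendsto_const_nhds.sub (hGt x t)).norm) ?_
      filter_upwards [eventually_ge_atTop N] with m hm
      exact (hN m n hm hn t ht).2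
  have hBL : ∀ n x, B (L n x) = L n (B x) := by
    intro n x
    have h1 := hL1 n x
    have h2 := hL2 n x
    exact add_right_cancel (h2.trans h1.symm)
  have hcom : ∀ t x, B (P' t x) = P' t (B x) := by
    intro t x
    have h1 : Tendsto (fun n => B (P n t x)) atTop (𝓝 (B (P' t x))) :=
      (B.continuous.tendsto _).comp (hPt x t)
    have h2 : (fun n => B (P n t x)) = fun n => P n t (B x) := by
      funext n
      exact ((hPG n).com B (hBL n) t x).1
    rw [h2] at h1
    exact tendsto_nhds_unique h1 (hPt (B x) t)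
  refine ⟨P', G', ⟨hP0, hG0, hGc, hdP, ?_, ?_⟩⟩
  · intro t v
    obtain ⟨h, h2⟩ := hB.mem (P' t (A v))
    have e : P' t (v : H) = B (P' t (A v)) := by
      rw [hcom, hB.left]
    refine ⟨e ▸ h, ?_⟩
    have e2 : (⟨P' t (v : H), e ▸ h⟩ : D) = ⟨B (P' t (A v)), h⟩ := Subtype.ext e
    rw [e2, h2]
  · intro t v
    have hv : B (A v) = (v : H) := hB.left v
    have hLP : ∀ n s, L n (P n s (v : H)) = P n s (L n (B (A v))) := by
      intro n s
      rw [← hv]
      rw [((hPG n).com (L n) (fun x => rfl) s (B (A v))).1]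
    refine hasDerivAt_of_tendstoLocallyUniformlyOn (f := fun n s => G n s (v : H))
      (f' := fun n s => -(c • G n s (v : H)) - L n (P n s (v : H)))
      (g' := fun s => -(c • G' s (v : H)) - P' s (A v)) isOpen_univ ?_
      (Eventually.of_forall fun n s _ => (hPG n).dG (v : H) s) (fun s _ => hGt (v : H) s)
      (mem_univ t)
    apply unif
    intro τ ε hε
    obtain ⟨C, hC0, hC⟩ := hbd |τ| (abs_nonneg _)
    have h1 := hun (v : H) τ (ε / (3 * (c + 1))) (by positivity)
    have h2 := hun (A v) τ (ε / 3) (by linarith)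
    have h3 : ∀ᶠ n in atTop, ‖L n (B (A v)) - A v‖ ≤ ε / (3 * (C + 1)) := by
      have h4 := (tendsto_iff_norm_sub_tendsto_zero.1 (hAPX B L hB.dense2 hL1 hL5 (A v)))
      exact (h4.eventually_lt_const (show (0 : ℝ) < ε / (3 * (C + 1)) by positivity)).mono
        fun n hn => hn.le
    filter_upwards [h1, h2, h3] with n hn1 hn2 hn3 s hs
    have e1 : -(c • G n s (v : H)) - L n (P n s (v : H)) - (-(c • G' s (v : H)) - P' s (A v)) =
        -(c • (G n s (v : H) - G' s (v : H))) - P n s (L n (B (A v)) - A v) -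
          (P n s (A v) - P' s (A v)) := by
      rw [hLP, map_sub, smul_sub]
      abel
    rw [e1]
    have b1 : ‖-(c • (G n s (v : H) - G' s (v : H)))‖ ≤ ε / 3 := by
      rw [norm_neg, norm_smul, Real.norm_of_nonneg hc.le]
      calc c * ‖G n s (v : H) - G' s (v : H)‖ ≤ c * (ε / (3 * (c + 1))) :=
            mul_le_mul_of_nonneg_left (hn1 s hs).2 hc.le
        _ ≤ ε / 3 := by
            rw [← mul_div_assoc, div_le_div_iff₀ (by positivity) (by norm_num)]
            nlinarith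
    have b2 : ‖P n s (L n (B (A v)) - A v)‖ ≤ ε / 3 := by
      calc ‖P n s (L n (B (A v)) - A v)‖ ≤ C * ‖L n (B (A v)) - A v‖ :=
            (hC n _ s (hs.trans (le_abs_self _))).1
        _ ≤ C * (ε / (3 * (C + 1))) := mul_le_mul_of_nonneg_left hn3 hC0
        _ ≤ ε / 3 := by
            rw [← mul_div_assoc, div_le_div_iff₀ (by positivity) (by norm_num)]
            nlinarith
    have b3 : ‖P n s (A v) - P' s (A v)‖ ≤ ε / 3 := (hn2 s hs).1
    calc ‖-(c • (G n s (v : H) - G' s (v : H))) - P n s (L n (B (A v)) - A v) -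
          (P n s (A v) - P' s (A v))‖
        ≤ ‖-(c • (G n s (v : H) - G' s (v : H))) - P n s (L n (B (A v)) - A v)‖ +
          ‖P n s (A v) - P' s (A v)‖ := norm_sub_le _ _
      _ ≤ ‖-(c • (G n s (v : H) - G' s (v : H)))‖ + ‖P n s (L n (B (A v)) - A v)‖ +
          ‖P n s (A v) - P' s (A v)‖ := by gcongr; exact norm_sub_le _ _
      _ ≤ ε := by linarith

end Pool.Agent.X37.FE.FIN
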