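import Mathlib
import Pool.Agent.X37.FE.Fin
import Pool.Agent.X330.FE.INV
import Pool.Agent.X104.FE.EXP
import Pool.Agent.X279.FE.YOS
import Pool.Agent.X133.FE.APX
import Pool.Agent.X297.LO.FeCauchy

set_option autoImplicit false

namespace Pool.Agent.X37.FE

open Pool.Agent.X83.DA

theorem exists_fam_of (H : Type*) [NormedAddCommGroup H] [InnerProductSpace ℝ H] [CompleteSpace H]
    (hBND : S_BND H) (D : Submodule ℝ H) (A : D →ₗ[ℝ] H) (b c : ℝ) (hSA : SA D A b) (hc : 0 < c) :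
    ∃ P G : ℝ → H →L[ℝ] H, Fam D A c P G :=
  FIN.fin H (Pool.Agent.X330.FE.t H) (Pool.Agent.X279.FE.t H) (Pool.Agent.X104.FE.EXP.t H) hBND
    (Pool.Agent.X297.FECON.t_CON H) (Pool.Agent.X133.FE.t_APX H) (Pool.Agent.X191.FE.t_LIM H)
    D A b c hSA hc

end Pool.Agent.X37.FE
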