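import Mathlib
import Pool.Agent.X37.FE.Pre
import Pool.Agent.X106.FE.BND

set_option autoImplicit false

namespace Pool.Agent.X37.FE

open Pool.Agent.X83.DA

/-- existence of the operator families for every self-adjoint coercive operator -/
theorem exists_fam (H : Type*) [NormedAddCommGroup H] [InnerProductSpace ℝ H] [CompleteSpace H]
    (D : Submodule ℝ H) (A : D →ₗ[ℝ] H) (b c : ℝ) (hSA : SA D A b) (hc : 0 < c) :
    ∃ P G : ℝ → H →L[ℝ] H, Fam D A c P G :=
  exists_fam_of H (Pool.Agent.X106.FE.t_BND H) D A b c hSA hc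

end Pool.Agent.X37.FE
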